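import Pool.Agent.H53.UK.Targets

/-!
# Row FNU of uk_modules (MP_c62aed_lc): the final statement
-/

set_option autoImplicit false

namespace Pool.Agent.H12.UK

open Finset
open Pool.Agent.H53.MC (Clause Falsified SatBy Line Circuit)
open Pool.Agent.H53.MW (Follows Session DerivesL geL DerivesR cb qp th0 th1)
open Pool.Agent.H53.UK

private theorem card_mono {α : Type} [Finite α] {P Q : α → Prop} (h : ∀ x, P x → Q x) :
    Nat.card {x // P x} ≤ Nat.card {x // Q x} :=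
  Nat.card_le_card_of_injective (fun x : {x // P x} => (⟨x.1, h x.1 x.2⟩ : {x // Q x}))
    (fun _ _ hab => Subtype.ext (congrArg (fun z : {x // Q x} => z.1) hab))

private theorem few_mono {γ : ℝ} {n t s b a a' N : ℕ} (h : a' ≤ a) (hF : Few γ n t s b a N) :
    Few γ n t s b a' N :=
  ⟨fun h1 h2 => lt_of_le_of_lt (Nat.mul_le_mul_left _ h) (hF.1 h1 h2),
    fun h1 => le_trans (Nat.mul_le_mul_left _ h) (hF.2 h1)⟩

theorem pf_FNU (hABU : T_ABU) (hARU : T_ARU) (hCRM : Pool.Agent.H53.MW.T_CRM) (hCMB : T_CMB)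
    (hHXU : T_HXU) (hCHU : T_CHU) (hNMU : T_NMU) : T_FNU := by
  obtain ⟨C, hC⟩ := hNMU
  refine ⟨C + 4, fun ε β n t k m h0 hεβ hβ ht hnt h1 h2 => ⟨fun h3 => ?_, fun h5 => ?_⟩⟩
  · have hl0 : (0 : ℝ) ≤ Nat.log 2 t := Nat.cast_nonneg _
    have hk0 : (0 : ℝ) ≤ k := Nat.cast_nonneg _
    have hn0 : (0 : ℝ) ≤ n := Nat.cast_nonneg _
    have hC0 : (0 : ℝ) ≤ C := Nat.cast_nonneg _
    push_cast at h1 h2
    have hCl : (0 : ℝ) ≤ C * Nat.log 2 t := by positivity
    have hCk : (0 : ℝ) ≤ C * k := by positivity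
    have h1' : (C : ℝ) * Nat.log 2 t ≤ ε ^ 2 * k := by linarith
    have h2' : (C : ℝ) * k ≤ ε * n := by linarith
    have hε1 : ε ≤ 1 := hεβ.le.trans hβ
    have h6 : ε ^ 2 * k ≤ k := by
      have : ε ^ 2 ≤ 1 := pow_le_one₀ h0.le hε1
      calc ε ^ 2 * k ≤ 1 * k := mul_le_mul_of_nonneg_right this hk0
        _ = k := one_mul _
    have h7 : ε * n ≤ n := by
      calc ε * n ≤ 1 * n := mul_le_mul_of_nonneg_right hε1 hn0
        _ = n := one_mul _
    have hkn : k ≤ n := by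
      have : (k : ℝ) ≤ n := by linarith
      exact_mod_cast this
    have hln : Nat.log 2 t ≤ n := by
      have : (Nat.log 2 t : ℝ) ≤ n := by linarith
      exact_mod_cast this
    have ht2 : t ≤ 2 ^ (n + 1) := by
      have h8 : t < 2 ^ (Nat.log 2 t).succ := Nat.lt_pow_succ_log_self (by norm_num) t
      have h9 : 2 ^ (Nat.log 2 t).succ ≤ 2 ^ (n + 1) :=
        Nat.pow_le_pow_right (by norm_num) (Nat.succ_le_succ hln)
      omega
    obtain ⟨μ, w, d, s₀, q, hP, hw, hμ, hs⟩ := hC ε β n t k h0 hεβ hβ ht hnt h1' h2'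
    have hx := hHXU ε β n k m μ w s₀ h0 (h0.trans hεβ) hw h3 hμ hs
    have hG : ∀ (s b : ℕ) (P : KCNF n k m → Prop),
        (∀ H : Fin m × Fin μ → KC n k, H3 H w s₀ →
          FewR (β - ε) n t s b (Nat.card {r : Fin m → Fin μ // P (FU H r)})
            (Nat.card (Fin m → Fin μ))) →
        Few (β - ε) n t s b (Nat.card {F : KCNF n k m // P F}) (Nat.card (KCNF n k m)) :=
      fun s b P h => hCMB (β - ε) t s b w s₀ P hkn hP.μ1 ht2 hx h
    have g2 : ∀ (𝓠 : Finset (Line n)) (N s : ℕ) (f : ℕ → (Fin n → Bool) → ℝ) (i : ℕ) (a : ℝ),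
        𝓠.card ≤ 2 ^ t → 1 ≤ s → i < N →
        Few (β - ε) n t (N * s) (Nat.card {x // f i x < a})
          (Nat.card {F : KCNF n k m // DerivesR (cnfU F) f 𝓠 t s i a})
          (Nat.card (KCNF n k m)) := fun 𝓠 N s f i a hq hs1 hi =>
      hG _ _ (fun F => DerivesR (cnfU F) f 𝓠 t s i a) fun H hH =>
        hARU H (β - ε) t w d s₀ q hH hP 𝓠 N s f i a hq hs1 hi
    refine ⟨fun 𝓛 𝓠 s L hq hs1 => ?_, g2, fun s h hCc i a hi => ?_⟩
    · exact hG _ _ (fun F => DerivesL (cnfU F) 𝓛 𝓠 t s L) fun H hH =>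
        hABU H (β - ε) t w d s₀ q hH hP 𝓛 𝓠 s L hq hs1
    · have g3 := g2 ∅ s 1 (fun j x => h j (SatBy x)) i a (by simp) le_rfl hi
      rw [mul_one] at g3
      exact few_mono (card_mono fun F ha =>
        hCRM (cnfU F) t s h (le_trans (by norm_num) ht) hCc i a hi ha) g3
  · refine hCHU ε n t k m h0 (hεβ.le.trans hβ) (by omega) hnt ?_
    refine le_trans ?_ h5
    have hC0 : (0 : ℝ) ≤ C := Nat.cast_nonneg _
    push_cast
    have ht0 : (0 : ℝ) ≤ t := Nat.cast_nonneg _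
    have : (0 : ℝ) ≤ C * (t * 2 ^ k) := by positivity
    nlinarith

end Pool.Agent.H12.UK
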