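import Pool.Agent.H53.UK.Targets

/-!
# Row LFU of uk_modules (MP_c62aed_lc): few choices are bad for a chain

Adapted from the rows LF of helper5 and LFX of helper19.
-/

set_option autoImplicit false

namespace Pool.Agent.H12.UK

open Finset
open Pool.Agent.H53.UK

namespace LFU

open Classical in
private theorem natCard_filter {α : Type} [Fintype α] (P : α → Prop) :
    Nat.card {a : α // P a} = (univ.filter P).card := by
  rw [Nat.card_eq_fintype_card, Fintype.card_subtype]

open Classical in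
/-- the objects of a union are counted by a bound for each member -/
private theorem cnt_le {α ι : Type} [Fintype α] (P : α → Prop) (C : Finset ι)
    (Q : ι → α → Prop) (a b s : ℕ) (hC : C.card ≤ s)
    (hPQ : ∀ x, P x → ∃ c ∈ C, Q c x) (hQ : ∀ c ∈ C, Nat.card {x // Q c x} * a ≤ b) :
    Nat.card {x // P x} * a ≤ s * b := by
  rw [natCard_filter]
  have h1 : univ.filter P ⊆ C.biUnion fun c => univ.filter (Q c) := by
    intro x hx
    rw [mem_filter] at hx
    obtain ⟨c, hc, hq⟩ := hPQ x hx.2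
    rw [mem_biUnion]
    exact ⟨c, hc, by rw [mem_filter]; exact ⟨mem_univ _, hq⟩⟩
  calc (univ.filter P).card * a ≤ (C.biUnion fun c => univ.filter (Q c)).card * a :=
        Nat.mul_le_mul_right _ (card_le_card h1)
    _ ≤ (∑ c ∈ C, (univ.filter (Q c)).card) * a := Nat.mul_le_mul_right _ card_biUnion_le
    _ = ∑ c ∈ C, (univ.filter (Q c)).card * a := sum_mul _ _ _
    _ ≤ ∑ _c ∈ C, b := by
        refine sum_le_sum (fun c hc => ?_)
        rw [← natCard_filter]
        exact hQ c hc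
    _ = C.card * b := by rw [sum_const, smul_eq_mul]
    _ ≤ s * b := Nat.mul_le_mul_right _ hC

/-- the choices which contain `T` and are bad above `T` -/
private def BADP {n k : ℕ} {ι : Type} (H : ι → KC n k)
    (𝒦 : Set (Set (Finset (Fin n) × (Fin n → Bool)))) (T : Finset ι) (l : ℕ) (R : Set ι) :
    Prop :=
  (∀ c ∈ T, c ∈ R) ∧ ∃ K ∈ 𝒦, (∀ p ∈ K, ∃ c ∈ R, InU H p c) ∧
    ∀ T2 : Finset ι, T ⊆ T2 → (∀ c ∈ T2, c ∈ R) → T2.card ≤ T.card + l →
      ∃ p ∈ K, ∀ c ∈ T2, ¬ InU H p c

/-- the smallest kernel with a member not hit by `T` -/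
private theorem step {n k : ℕ} {ι : Type} (H : ι → KC n k)
    (𝒦 : Set (Set (Finset (Fin n) × (Fin n → Bool)))) (hch : IsChain (· ⊆ ·) 𝒦) (w : ℕ)
    (hw : ∀ K ∈ 𝒦, ∀ p ∈ K, p.1.card < w) (T : Finset ι) :
    (∀ (l : ℕ) (R : Set ι), ¬ BADP H 𝒦 T l R) ∨
    ∃ p : Finset (Fin n) × (Fin n → Bool), p.1.card < w ∧ (∀ c ∈ T, ¬ InU H p c) ∧
      ∀ (l : ℕ) (R : Set ι), BADP H 𝒦 T l R → ∃ c ∈ R, InU H p c := by
  classical
  by_cases h : ∃ K ∈ 𝒦, ∃ p ∈ K, ∀ c ∈ T, ¬ InU H p c
  · right
    let S : Set (Set (Finset (Fin n) × (Fin n → Bool))) :=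
      {K | K ∈ 𝒦 ∧ ∃ p ∈ K, ∀ c ∈ T, ¬ InU H p c}
    have hne : S.Nonempty := by
      obtain ⟨K, hK, hp⟩ := h
      exact ⟨K, hK, hp⟩
    have hwf : WellFounded
        (fun A B : Set (Finset (Fin n) × (Fin n → Bool)) => A < B) := wellFounded_lt
    obtain ⟨K0, hK0, hmin⟩ := hwf.has_min S hne
    obtain ⟨hK0c, p, hpK, hpT⟩ := hK0
    refine ⟨p, hw K0 hK0c p hpK, hpT, ?_⟩
    intro l R hF
    obtain ⟨hR, K2, hK2, hhit, hbad⟩ := hF
    have hK2S : K2 ∈ S := ⟨hK2, hbad T (Finset.Subset.refl T) hR (Nat.le_add_right _ _)⟩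
    have hsub : K0 ⊆ K2 := by
      rcases hch.total hK0c hK2 with h1 | h1
      · exact h1
      · have h2 := hmin K2 hK2S
        by_contra h3
        exact h2 (lt_of_le_not_ge h1 h3)
    exact hhit p (hsub hpK)
  · left
    intro l R hF
    obtain ⟨hR, K2, hK2, -, hbad⟩ := hF
    exact h ⟨K2, hK2, hbad T (Finset.Subset.refl T) hR (Nat.le_add_right _ _)⟩

open Classical in
private theorem inside_le {n k m μ : ℕ} (H : Fin m × Fin μ → KC n k) (w s₀ : ℕ)
    (hH : H3 H w s₀) (p : Finset (Fin n) × (Fin n → Bool)) (hp : p.1.card < w) :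
    (univ.filter fun c : Fin m × Fin μ => InU H p c).card ≤ s₀ := by
  rw [← natCard_filter]
  exact hH p (by omega)

open Classical in
/-- the claim -/
private theorem claim (hRS : T_RSU) {n k m μ : ℕ} (H : Fin m × Fin μ → KC n k) (w s₀ : ℕ)
    (hH : H3 H w s₀) (𝒦 : Set (Set (Finset (Fin n) × (Fin n → Bool))))
    (hch : IsChain (· ⊆ ·) 𝒦) (hw : ∀ K ∈ 𝒦, ∀ p ∈ K, p.1.card < w) :
    ∀ (l : ℕ) (T : Finset (Fin m × Fin μ)),
      Nat.card {r : Fin m → Fin μ // BADP H 𝒦 T l (AL r)} * μ ^ (T.card + l + 1) ≤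
        s₀ ^ (l + 1) * Nat.card (Fin m → Fin μ) := by
  have hemp : ∀ (T : Finset (Fin m × Fin μ)) (l a b : ℕ),
      (∀ R : Set (Fin m × Fin μ), ¬ BADP H 𝒦 T l R) →
      Nat.card {r : Fin m → Fin μ // BADP H 𝒦 T l (AL r)} * a ≤ b := by
    intro T l a b h
    have : IsEmpty {r : Fin m → Fin μ // BADP H 𝒦 T l (AL r)} := ⟨fun F => h _ F.2⟩
    rw [Nat.card_of_isEmpty, zero_mul]
    exact Nat.zero_le _
  intro l
  induction l with
  | zero =>
    intro T
    rcases step H 𝒦 hch w hw T with h | ⟨p, hp, hpT, hhit⟩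
    · exact hemp T 0 _ _ (fun F => h 0 F)
    · have hC := inside_le H w s₀ hH p hp
      rw [zero_add, pow_one]
      refine cnt_le (fun r : Fin m → Fin μ => BADP H 𝒦 T 0 (AL r))
        (univ.filter fun c : Fin m × Fin μ => InU H p c)
        (fun c r => c ∉ T ∧ ∀ c' ∈ insert c T, c' ∈ AL r) _ _ s₀ hC ?_ ?_
      · intro r hF
        obtain ⟨c0, hc0, hj⟩ := hhit 0 _ hF
        refine ⟨c0, by rw [mem_filter]; exact ⟨mem_univ _, hj⟩, fun hc => hpT _ hc hj, ?_⟩
        intro c hc
        rcases mem_insert.1 hc with h1 | h1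
        · rw [h1]
          exact hc0
        · exact hF.1 c h1
      · intro c _
        by_cases hcT : c ∈ T
        · have : IsEmpty {r : Fin m → Fin μ // c ∉ T ∧ ∀ c' ∈ insert c T, c' ∈ AL r} :=
            ⟨fun F => F.2.1 hcT⟩
          rw [Nat.card_of_isEmpty, zero_mul]
          exact Nat.zero_le _
        · have hcard : (insert c T).card = T.card + 1 := card_insert_of_notMem hcT
          have h1 := hRS (insert c T)
          rw [hcard] at h1
          refine le_trans (Nat.mul_le_mul_right _ (Nat.card_mono (Set.toFinite _) ?_)) h1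
          intro F hF
          exact hF.2
  | succ l ih =>
    intro T
    rcases step H 𝒦 hch w hw T with h | ⟨p, hp, hpT, hhit⟩
    · exact hemp T (l + 1) _ _ (fun F => h (l + 1) F)
    · have hC := inside_le H w s₀ hH p hp
      have e1 : T.card + (l + 1) + 1 = T.card + 1 + l + 1 := by omega
      have hpow : s₀ ^ (l + 1 + 1) * Nat.card (Fin m → Fin μ) =
          s₀ * (s₀ ^ (l + 1) * Nat.card (Fin m → Fin μ)) := by
        rw [pow_succ s₀ (l + 1)]
        ring
      rw [hpow, e1]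
      refine cnt_le (fun r : Fin m → Fin μ => BADP H 𝒦 T (l + 1) (AL r))
        (univ.filter fun c : Fin m × Fin μ => InU H p c)
        (fun c r => c ∉ T ∧ BADP H 𝒦 (insert c T) l (AL r)) _ _ s₀ hC ?_ ?_
      · intro r hF
        obtain ⟨c0, hc0, hj⟩ := hhit (l + 1) _ hF
        have hnT : c0 ∉ T := fun hc => hpT _ hc hj
        refine ⟨c0, by rw [mem_filter]; exact ⟨mem_univ _, hj⟩, hnT, ?_, ?_⟩
        · intro c hc
          rcases mem_insert.1 hc with h1 | h1
          · rw [h1]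
            exact hc0
          · exact hF.1 c h1
        · obtain ⟨-, K, hK, hKh, hKb⟩ := hF
          refine ⟨K, hK, hKh, ?_⟩
          intro T2 hT2 hR2 hc2
          refine hKb T2 (subset_trans (subset_insert _ _) hT2) hR2 ?_
          rw [card_insert_of_notMem hnT] at hc2
          omega
      · intro c _
        by_cases hcT : c ∈ T
        · have : IsEmpty {r : Fin m → Fin μ // c ∉ T ∧ BADP H 𝒦 (insert c T) l (AL r)} :=
            ⟨fun F => F.2.1 hcT⟩
          rw [Nat.card_of_isEmpty, zero_mul]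
          exact Nat.zero_le _
        · have hcard : (insert c T).card = T.card + 1 := card_insert_of_notMem hcT
          have h1 := ih (insert c T)
          rw [hcard] at h1
          refine le_trans (Nat.mul_le_mul_right _ (Nat.card_mono (Set.toFinite _) ?_)) h1
          intro F hF
          exact hF.2

end LFU

open LFU in
theorem pf_LFU (hRSU : T_RSU) : T_LFU := by
  intro n k m μ H w s₀ q hH 𝒦 hch hw
  have h := claim hRSU H w s₀ hH 𝒦 hch hw q ∅
  rw [card_empty, zero_add] at h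
  refine le_trans (Nat.mul_le_mul_right _ (Nat.card_mono (Set.toFinite _) ?_)) h
  intro r hF
  obtain ⟨K, hK, hKh, hKb⟩ := hF
  refine ⟨fun c hc => absurd hc (notMem_empty c), K, hK, hKh, ?_⟩
  intro T2 _ hR2 hc2
  refine hKb T2 hR2 ?_
  rw [card_empty, zero_add] at hc2
  exact hc2

end Pool.Agent.H12.UK
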